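import Pool.Agent.Q6.TY.All3

/-!
# MP_dafae9_al : bounded solutions of maximal consistent sum-product systems

All solutions of a maximal system with only finitely many solutions are bounded by
`2 ^ (2 ^ (n - 2))`, every maximal system has a solution with this bound, and the statement asked
about is equivalent to the finiteness of all maximal systems.
-/

namespace Pool.Agent.Results.MP_dafae9_al.MaximalSystems

/-- The set of the complex solutions of the system consisting of the equations `x i = 1` for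
`i ∈ A`, `x i + x j = x k` for `(i, j, k) ∈ B` and `x i * x j = x k` for `(i, j, k) ∈ C`. -/
def Solutions {n : ℕ} (A : Set (Fin n)) (B C : Set (Fin n × Fin n × Fin n)) :
    Set (Fin n → ℂ) :=
  {x | (∀ i ∈ A, x i = 1) ∧ (∀ e ∈ B, x e.1 + x e.2.1 = x e.2.2) ∧
    ∀ e ∈ C, x e.1 * x e.2.1 = x e.2.2}

/-- The equations `(i, j, k)` are listed with `i ≤ j` only. -/
def InE {n : ℕ} (B C : Set (Fin n × Fin n × Fin n)) : Prop :=
  (∀ e ∈ B, e.1 ≤ e.2.1) ∧ ∀ e ∈ C, e.1 ≤ e.2.1

/-- A maximal system: consistent over `ℂ`, and no larger system is. -/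
def Maximal {n : ℕ} (A : Set (Fin n)) (B C : Set (Fin n × Fin n × Fin n)) : Prop :=
  InE B C ∧ (Solutions A B C).Nonempty ∧ ∀ (A' : Set (Fin n)) (B' C' : Set (Fin n × Fin n × Fin n)),
    InE B' C' → A ⊆ A' → B ⊆ B' → C ⊆ C' → (Solutions A' B' C').Nonempty →
    A' = A ∧ B' = B ∧ C' = C

/-- The bound `2 ^ (2 ^ (n - 2))` (real exponents). -/
noncomputable def bd (n : ℕ) : ℝ := (2 : ℝ) ^ ((2 : ℝ) ^ ((n : ℝ) - 2))

theorem empty_case {n : ℕ} {A : Set (Fin n)} {B C : Set (Fin n × Fin n × Fin n)}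
    (h : Maximal A B C) (hA : ¬ A.Nonempty) {x : Fin n → ℂ} (hx : x ∈ Solutions A B C) (i : Fin n) :
    x i = 0 := by
  obtain ⟨h1, h2, h3⟩ := h
  have hA' : A = ∅ := Set.not_nonempty_iff_eq_empty.1 hA
  have h4 := h3 A {e | e.1 ≤ e.2.1} {e | e.1 ≤ e.2.1} ⟨fun _ he => he, fun _ he => he⟩ subset_rfl
    (fun e he => h1.1 e he) (fun e he => h1.2 e he) ⟨fun _ => 0, by
      refine ⟨fun j hj => ?_, fun e _ => by simp, fun e _ => by simp⟩
      rw [hA'] at hj
      exact absurd hj (Set.notMem_empty j)⟩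
  have h5 : ((i, i, i) : Fin n × Fin n × Fin n) ∈ B := by
    rw [← h4.2.1]; exact le_refl i
  have h6 : x i + x i = x i := hx.2.1 _ h5
  simpa using h6

/-- (1) Every solution of a maximal system with finitely many solutions satisfies the bound.
(2) Every maximal system has a solution which satisfies the bound.
(3) All solutions of all maximal systems satisfy the bound if and only if all maximal systems have
only finitely many solutions. -/
theorem result :
    (∀ n : ℕ, 1 ≤ n → ∀ (A : Set (Fin n)) (B C : Set (Fin n × Fin n × Fin n)), Maximal A B C →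
      (Solutions A B C).Finite → ∀ x ∈ Solutions A B C, ∀ i, ‖x i‖ ≤ bd n) ∧
    (∀ n : ℕ, 1 ≤ n → ∀ (A : Set (Fin n)) (B C : Set (Fin n × Fin n × Fin n)), Maximal A B C →
      ∃ x ∈ Solutions A B C, ∀ i, ‖x i‖ ≤ bd n) ∧
    ((∀ n : ℕ, 1 ≤ n → ∀ (A : Set (Fin n)) (B C : Set (Fin n × Fin n × Fin n)), Maximal A B C →
      ∀ x ∈ Solutions A B C, ∀ i, ‖x i‖ ≤ bd n) ↔
      ∀ n : ℕ, 1 ≤ n → ∀ (A : Set (Fin n)) (B C : Set (Fin n × Fin n × Fin n)), Maximal A B C →
      (Solutions A B C).Finite) := by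
  have hpos : ∀ n, 0 ≤ bd n := fun n => by unfold bd; positivity
  have part1 : ∀ n : ℕ, 1 ≤ n → ∀ (A : Set (Fin n)) (B C : Set (Fin n × Fin n × Fin n)),
      Maximal A B C → (Solutions A B C).Finite → ∀ x ∈ Solutions A B C, ∀ i, ‖x i‖ ≤ bd n := by
    intro n _ A B C hmax hfin x hx i
    by_cases hA : A.Nonempty
    · exact Pool.Agent.Q6.TY.bound_one' n A B C hA hfin x hx i
    · rw [empty_case hmax hA hx i, norm_zero]
      exact hpos n
  refine ⟨part1, ?_, ?_⟩
  · intro n _ A B C hmax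
    by_cases hA : A.Nonempty
    · exact Pool.Agent.Q6.TY.small_one' n A B C hA hmax.2.1
    · obtain ⟨x, hx⟩ := hmax.2.1
      refine ⟨x, hx, fun i => ?_⟩
      rw [empty_case hmax hA hx i, norm_zero]
      exact hpos n
  · constructor
    · intro h n hn A B C hmax
      by_contra hinf
      obtain ⟨x, hx, i, hi⟩ := Pool.Agent.Q6.TY.unbdd Pool.Agent.Q6.TY.p_COF
        (A := A) (B := B) (C := C) hinf (bd n)
      have := h n hn A B C hmax x hx i
      linarith
    · intro h n hn A B C hmax x hx i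
      exact part1 n hn A B C hmax (h n hn A B C hmax) x hx i

end Pool.Agent.Results.MP_dafae9_al.MaximalSystems
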